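import Pool.Agent.Helper89.SP.Defs
import Pool.Agent.Helper96.Slab.Perm
import Pool.Agent.Helper34.Slab.PL

/-!
Project SP, module SP-15a: the tail of a sum of independent uniforms is log-concave.
-/

set_option autoImplicit false

open MeasureTheory Set Real Slab

namespace Pool.Agent.Helper89.SP

/-- log-concavity on the line -/
def LCv (G : ℝ → ℝ) : Prop :=
  ∀ x y l : ℝ, 0 < l → l < 1 → G x ^ (1 - l) * G y ^ l ≤ G ((1 - l) * x + l * y)

theorem LCv.ordConnected {G : ℝ → ℝ} (h : LCv G) {c : ℝ} (hc : 0 ≤ c) {p q r : ℝ}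
    (hp : c < G p) (hq : c < G q) (h1 : p ≤ r) (h2 : r ≤ q) : c < G r := by
  rcases h1.eq_or_lt with h1 | h1
  · rw [← h1]; exact hp
  rcases h2.eq_or_lt with h2 | h2
  · rw [h2]; exact hq
  have hpq : 0 < q - p := by linarith
  have s0 : 0 < (r - p) / (q - p) := div_pos (by linarith) hpq
  have s1 : (r - p) / (q - p) < 1 := (div_lt_one hpq).2 (by linarith)
  have h3 := h p q _ s0 s1
  have h4 : (1 - (r - p) / (q - p)) * p + (r - p) / (q - p) * q = r := by
    field_simp
    ring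
  rw [h4] at h3
  refine lt_of_lt_of_le ?_ h3
  have hs1 : 0 < 1 - (r - p) / (q - p) := by linarith
  rcases hc.eq_or_lt with h5 | h5
  · rw [← h5] at hp hq ⊢
    positivity
  · have h6 : c = c ^ (1 - (r - p) / (q - p)) * c ^ ((r - p) / (q - p)) := by
      rw [← Real.rpow_add h5]
      simp
    rw [h6]
    exact mul_lt_mul'' (Real.rpow_lt_rpow hc hp hs1) (Real.rpow_lt_rpow hc hq s0)
      (Real.rpow_nonneg hc _) (Real.rpow_nonneg hc _)

theorem LCv_H : LCv H := by
  intro x y l l0 l1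
  have hl : 0 < 1 - l := by linarith
  unfold H
  by_cases hx : x < 0
  · by_cases hy : y < 0
    · have : (1 - l) * x + l * y < 0 := by nlinarith
      rw [if_pos hx, if_pos hy, if_pos this]
      simp
    · rw [if_neg hy, Real.zero_rpow l0.ne', mul_zero]
      split <;> norm_num
  · rw [if_neg hx, Real.zero_rpow hl.ne', zero_mul]
    split <;> norm_num

theorem LCv.windows {G : ℝ → ℝ} (hG : LCv G) (hn : Perm.Nice G) (h0 : ∀ s, 0 ≤ G s) (a : ℝ) :
    LCv (Slab.A a G) := by
  intro x y l l0 l1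
  have hl1 : 0 < 1 - l := by linarith
  obtain ⟨hm, C, hC⟩ := hn
  have hC0 : 0 ≤ C := (abs_nonneg _).trans (hC 0)
  have hint : ∀ z, Slab.A a G z = ∫ u, (Ioc (-1 : ℝ) 1).indicator (fun u => G (z - a * u)) u := by
    intro z
    rw [Perm.A_eq, integral_indicator measurableSet_Ioc]
  have hmz : ∀ z : ℝ, Measurable fun u : ℝ => G (z - a * u) := fun z => hm.comp (by fun_prop)
  have hi : ∀ z, Integrable ((Ioc (-1 : ℝ) 1).indicator (fun u => G (z - a * u))) := by
    intro z
    rw [integrable_indicator_iff measurableSet_Ioc]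
    refine Measure.integrableOn_of_bounded (M := C) ?_ (hmz z).aestronglyMeasurable
      (Filter.Eventually.of_forall fun u => hC _)
    rw [Real.volume_Ioc]
    exact ENNReal.ofReal_ne_top
  have hnn : ∀ z u, 0 ≤ (Ioc (-1 : ℝ) 1).indicator (fun u => G (z - a * u)) u := fun z u =>
    indicator_nonneg (fun v _ => h0 _) u
  have hbdd : ∀ z, BddAbove (range ((Ioc (-1 : ℝ) 1).indicator (fun u => G (z - a * u)))) := by
    intro z
    refine ⟨C, ?_⟩
    rintro _ ⟨p, rfl⟩
    by_cases hp : p ∈ Ioc (-1 : ℝ) 1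
    · rw [indicator_of_mem hp]
      exact (le_abs_self _).trans (hC _)
    · rw [indicator_of_notMem hp]
      exact hC0
  have hmem : ∀ z p, 0 < (Ioc (-1 : ℝ) 1).indicator (fun u => G (z - a * u)) p →
      p ∈ Ioc (-1 : ℝ) 1 := by
    intro z p hp
    by_contra hcon
    rw [indicator_of_notMem hcon] at hp
    exact lt_irrefl _ hp
  have hsupp : ∀ z, ∀ p, 0 < (Ioc (-1 : ℝ) 1).indicator (fun u => G (z - a * u)) p →
      |p| ≤ 1 := by
    intro z p hp
    have h1 := hmem z p hp
    exact abs_le.2 ⟨h1.1.le, h1.2⟩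
  set w := (1 - l) * x + l * y with hwdef
  rw [hint x, hint y, hint w]
  refine Pool.Agent.Helper34.Slab.pl_gen (hi x) (hi y) (hi w) (hnn x) (hnn y) (hnn w) (hbdd x)
    (hbdd y) (R := 1) (hsupp x) (hsupp y) (hsupp w) ?_ l0 l1 ?_
  · intro c hc
    refine ⟨?_⟩
    rintro p hp q hq r ⟨hpr, hrq⟩
    have hp' : c < (Ioc (-1 : ℝ) 1).indicator (fun u => G (w - a * u)) p := hp
    have hq' : c < (Ioc (-1 : ℝ) 1).indicator (fun u => G (w - a * u)) q := hq
    have hpm := hmem w p (hc.trans_lt hp')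
    have hqm := hmem w q (hc.trans_lt hq')
    have hrm : r ∈ Ioc (-1 : ℝ) 1 := ⟨hpm.1.trans_le hpr, hrq.trans hqm.2⟩
    rw [indicator_of_mem hpm] at hp'
    rw [indicator_of_mem hqm] at hq'
    show c < (Ioc (-1 : ℝ) 1).indicator (fun u => G (w - a * u)) r
    rw [indicator_of_mem hrm]
    rcases le_total 0 a with ha | ha
    · exact hG.ordConnected hc hq' hp' (by nlinarith) (by nlinarith)
    · exact hG.ordConnected hc hp' hq' (by nlinarith) (by nlinarith)
  · intro p q
    by_cases hp : p ∈ Ioc (-1 : ℝ) 1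
    swap
    · rw [indicator_of_notMem hp, Real.zero_rpow hl1.ne', zero_mul]
      exact hnn w _
    by_cases hq : q ∈ Ioc (-1 : ℝ) 1
    swap
    · rw [indicator_of_notMem hq, Real.zero_rpow l0.ne', mul_zero]
      exact hnn w _
    have hm' : (1 - l) * p + l * q ∈ Ioc (-1 : ℝ) 1 := by
      constructor
      · nlinarith [hp.1, hq.1]
      · nlinarith [hp.2, hq.2]
    rw [indicator_of_mem hp, indicator_of_mem hq, indicator_of_mem hm']
    have h5 := hG (x - a * p) (y - a * q) l l0 l1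
    have h6 : (1 - l) * (x - a * p) + l * (y - a * q) = w - a * ((1 - l) * p + l * q) := by
      rw [hwdef]; ring
    rwa [h6] at h5

theorem AL_H_nonneg (L : List ℝ) (s : ℝ) : 0 ≤ AL L H s := by
  induction L generalizing s with
  | nil => rw [AL_nil]; unfold H; split <;> norm_num
  | cons x l ih =>
    rw [AL_cons, Perm.A_eq]
    exact integral_nonneg fun u => ih _

theorem LCv_AL (L : List ℝ) : LCv (AL L H) := by
  induction L with
  | nil => rw [AL_nil]; exact LCv_H
  | cons x l ih =>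
    rw [AL_cons]
    exact ih.windows (Perm.nice_AL l) (AL_H_nonneg l) x

theorem T_logconcave (L : List ℝ) (hL : ∃ y ∈ L, y ≠ 0) {x y k : ℝ} (hx : 0 < x) (hxy : x < y)
    (hk0 : 0 < k) (hk1 : k < 1) :
    T L x ^ (1 - k) * T L y ^ k ≤ T L ((1 - k) * x + k * y) := by
  have h := LCv_AL L x y k hk0 hk1
  have hc : (0 : ℝ) < 2 / 2 ^ L.length := by positivity
  have e : ∀ s, T L s = 2 / 2 ^ L.length * AL L H s := by
    intro s; unfold T; ring
  rw [e, e, e, Real.mul_rpow hc.le (AL_H_nonneg L x), Real.mul_rpow hc.le (AL_H_nonneg L y)]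
  have h6 : ((2 : ℝ) / 2 ^ L.length) ^ (1 - k) * ((2 : ℝ) / 2 ^ L.length) ^ k =
      2 / 2 ^ L.length := by
    rw [← Real.rpow_add hc]
    simp
  calc ((2 : ℝ) / 2 ^ L.length) ^ (1 - k) * AL L H x ^ (1 - k) *
      (((2 : ℝ) / 2 ^ L.length) ^ k * AL L H y ^ k)
      = (((2 : ℝ) / 2 ^ L.length) ^ (1 - k) * ((2 : ℝ) / 2 ^ L.length) ^ k) *
        (AL L H x ^ (1 - k) * AL L H y ^ k) := by ring
    _ ≤ 2 / 2 ^ L.length * AL L H ((1 - k) * x + k * y) := by
        rw [h6]
        exact mul_le_mul_of_nonneg_left h hc.le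

end Pool.Agent.Helper89.SP
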