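import Pool.Agent.Helper94.SP.Bern

/-!
Project SP, module SP-09c: numeric facts fact_T3_4, fact_T3_8b.
-/

set_option autoImplicit false

open Real

namespace Pool.Agent.Helper89.SP

namespace Facts94

/-- the two vertices of the polygon when `A ≤ 12 F` -/
theorem DD_lower {A F t p q r m Lo c : ℝ} (hA0 : 0 ≤ A) (hA : A ≤ 12 * F) (hqm : q ≤ m)
    (hrq : r ≤ q) (hL : Lo ≤ q + r) (h1 : 0 ≤ DD p t m m A F - c)
    (h0 : 0 ≤ DD p t m (Lo - m) A F - c) : c ≤ DD p t q r A F := by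
  have e1 : DD p t q r A F - DD p t m (q + r - m) A F =
      (8 * F - 2 * A / 3) * ((m - q) * (m - r)) := by
    unfold DD; ring
  have h2 : 0 ≤ (8 * F - 2 * A / 3) * ((m - q) * (m - r)) :=
    mul_nonneg (by linarith) (mul_nonneg (by linarith) (by linarith))
  have h3 : c ≤ DD p t m (q + r - m) A F := by
    have hr1 : q + r - m ≤ m := by linarith
    have hr0 : Lo - m ≤ q + r - m := by linarith
    generalize q + r - m = x at hr1 hr0
    rcases hr0.eq_or_lt with h | h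
    · rw [← h]; linarith
    · have e2 : (DD p t m x A F - c) * (m - (Lo - m)) =
          (m - x) * (DD p t m (Lo - m) A F - c) + (x - (Lo - m)) * (DD p t m m A F - c) +
          2 * A / 3 * ((x - (Lo - m)) * (m - x) * (m - (Lo - m))) := by
        unfold DD; ring
      have h4 : 0 ≤ (DD p t m x A F - c) * (m - (Lo - m)) := by
        rw [e2]
        have a1 : 0 ≤ (m - x) * (DD p t m (Lo - m) A F - c) := mul_nonneg (by linarith) h0
        have a2 : 0 ≤ (x - (Lo - m)) * (DD p t m m A F - c) := mul_nonneg (by linarith) h1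
        have a3 : 0 ≤ 2 * A / 3 * ((x - (Lo - m)) * (m - x) * (m - (Lo - m))) := by
          refine mul_nonneg (by linarith) (mul_nonneg (mul_nonneg (by linarith) (by linarith))
            (by linarith))
        linarith
      have h5 : 0 < m - (Lo - m) := by linarith
      have := nonneg_of_mul_nonneg_left h4 h5
      linarith
  linarith

/-- the two vertices on the diagonal when `12 F ≤ A` -/
theorem DD_lower' {A F t p q r m lo c : ℝ} (hA0 : 0 ≤ A) (hA : 12 * F ≤ A) (hqm : q ≤ m)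
    (hrq : r ≤ q) (hL : 2 * lo ≤ q + r) (h1 : 0 ≤ DD p t m m A F - c)
    (h0 : 0 ≤ DD p t lo lo A F - c) : c ≤ DD p t q r A F := by
  have e1 : DD p t q r A F - DD p t ((q + r) / 2) ((q + r) / 2) A F =
      (A / 6 - 2 * F) * (q - r) ^ 2 := by
    unfold DD; ring
  have h2 : 0 ≤ (A / 6 - 2 * F) * (q - r) ^ 2 :=
    mul_nonneg (by linarith) (sq_nonneg _)
  have h3 : c ≤ DD p t ((q + r) / 2) ((q + r) / 2) A F := by
    have hr1 : (q + r) / 2 ≤ m := by linarith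
    have hr0 : lo ≤ (q + r) / 2 := by linarith
    generalize (q + r) / 2 = x at hr1 hr0
    rcases hr0.eq_or_lt with h | h
    · rw [← h]; linarith
    · have e2 : (DD p t x x A F - c) * (m - lo) =
          (m - x) * (DD p t lo lo A F - c) + (x - lo) * (DD p t m m A F - c) +
          (10 * A / 3 - 8 * F) * ((x - lo) * (m - x) * (m - lo)) := by
        unfold DD; ring
      have h4 : 0 ≤ (DD p t x x A F - c) * (m - lo) := by
        rw [e2]
        have a1 : 0 ≤ (m - x) * (DD p t lo lo A F - c) := mul_nonneg (by linarith) h0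
        have a2 : 0 ≤ (x - lo) * (DD p t m m A F - c) := mul_nonneg (by linarith) h1
        have a3 : 0 ≤ (10 * A / 3 - 8 * F) * ((x - lo) * (m - x) * (m - lo)) := by
          refine mul_nonneg (by linarith) (mul_nonneg (mul_nonneg (by linarith) (by linarith))
            (by linarith))
        linarith
      have h5 : 0 < m - lo := by linarith
      have := nonneg_of_mul_nonneg_left h4 h5
      linarith
  linarith

/-- the first correction -/
theorem K_le {c1 v b k m : ℝ} (hb : 0 < b) (hv : 0 ≤ v) (hc0 : 0 ≤ c1) (hvb : v ≤ m * b)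
    (hc : c1 ≤ k * b) (hk : 0 ≤ k) (hm : 0 ≤ m) :
    c1 * (0.1647 * v ^ 3 / b ^ 4) ≤ 0.1647 * (k * m ^ 3) := by
  have h1 : v ^ 3 ≤ (m * b) ^ 3 := by gcongr
  have h2 : 0.1647 * v ^ 3 / b ^ 4 ≤ 0.1647 * m ^ 3 / b := by
    rw [div_le_div_iff₀ (by positivity) hb]
    have : 0.1647 * v ^ 3 * b ≤ 0.1647 * (m * b) ^ 3 * b := by gcongr
    refine this.trans (le_of_eq ?_)
    ring
  calc c1 * (0.1647 * v ^ 3 / b ^ 4) ≤ (k * b) * (0.1647 * m ^ 3 / b) :=
        mul_le_mul hc h2 (by positivity) (by positivity)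
    _ = 0.1647 * (k * m ^ 3) := by field_simp

end Facts94

open Facts94

theorem fact_T3_4 {t p q r : ℝ} (hp0 : 0.5125 ≤ p) (hp1 : p ≤ 0.56) (ht0 : 1.1 ≤ t) (ht1 : t ≤ 1.2)
    (hr : 0 < r) (hrq : r ≤ q) (hqp : q ≤ p) (hpq : p + q ≤ t) (hsq : p ^ 2 + q ^ 2 + r ^ 2 ≤ 1)
    (hS : S4 p ≤ q + r) : Beats t p q r (T4 t) := by
  left
  unfold S4 at hS
  unfold Gi Kb vv T4
  have htp0 : 0.56375 ≤ t * p := by nlinarith
  have htp1 : t * p ≤ 0.672 := by nlinarith
  have hA0 : 0 ≤ 1 - t * p := by linarith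
  have hA : 1 - t * p ≤ 12 * ((2 - t) ^ 4 / 12) := by
    have h1 : (2 - t) ^ 4 = ((2 - t) ^ 2) ^ 2 := by ring
    have h2 : 0.64 + 0.8 * 2 * (1.2 - t) ≤ (2 - t) ^ 2 := by nlinarith
    nlinarith
  -- the main part
  have hD : 0.00039 ≤ DD p t q r (1 - t * p) ((2 - t) ^ 4 / 12) := by
    rcases le_total (2 * p) t with h2 | h2
    · exact DD_lower hA0 hA hqp hrq hS (b4_I1 ht0 ht1 hp0 hp1) (b4_I0 ht0 ht1 hp0 hp1)
    · have h3 : t ≤ 1.12 := by linarith
      have e1 : t / 2 + (p - t / 2) = p := by ring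
      have k1 := b4_II1 (t := t) (w := p - t / 2) ht0 h3 (by linarith) (by linarith)
      have k0 := b4_II0 (t := t) (w := p - t / 2) ht0 h3 (by linarith) (by linarith)
      rw [e1] at k1 k0
      exact DD_lower hA0 hA (by linarith) hrq hS k1 k0
  -- the corrections
  have hv : 0 ≤ (1 - p ^ 2 - q ^ 2 - r ^ 2) / 3 := by linarith
  have hv1 : (1 - p ^ 2 - q ^ 2 - r ^ 2) / 3 ≤ (1 - p ^ 2 - (q + r) ^ 2 / 2) / 3 := by
    nlinarith [sq_nonneg (q - r)]
  have hb : 0 < t + p - q - r := by linarith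
  have hvb : (1 - p ^ 2 - q ^ 2 - r ^ 2) / 3 ≤ 0.1245 * (t + p - q - r) := by
    have h5 : 0 ≤ 0.3735 * (1.1 + p - (q + r)) - 1 + p ^ 2 + (q + r) ^ 2 / 2 := by
      nlinarith
    linarith
  have hc : 4 * (t * p) - 2 ≤ 1.12 * (t + p - q - r) := by nlinarith
  have hK1 := K_le hb hv (by linarith : 0 ≤ 4 * (t * p) - 2) hvb hc (by norm_num) (by norm_num)
  have hv2 : (1 - p ^ 2 - q ^ 2 - r ^ 2) / 3 ≤ 0.08 := by nlinarith
  have hg : 1.4 ≤ t - p + q + r := by linarith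
  have hK2 : (1 - t * p) * (0.1647 * ((1 - p ^ 2 - q ^ 2 - r ^ 2) / 3) ^ 3 /
      (t - p + q + r) ^ 4) ≤ 0.44 * (0.1647 * 0.08 ^ 3 / 1.4 ^ 4) := by
    have h6 : 1 - t * p ≤ 0.44 := by linarith
    gcongr
  rw [max_eq_left (by linarith : 0 ≤ 4 * (t * p) - 2)]
  unfold DD at hD
  norm_num at hK1 hK2 hD ⊢
  linarith

theorem fact_T3_8b {t p q r : ℝ} (hp0 : 0.56 ≤ p) (hp1 : p ≤ 0.72) (ht0 : 1.2 ≤ t) (ht1 : t ≤ 1.35)
    (hr : 0 < r) (hrq : r ≤ q) (hqp : q ≤ p) (hpq : p + q ≤ t) (hsq : p ^ 2 + q ^ 2 + r ^ 2 ≤ 1)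
    (hS : 0.95 ≤ q + r) : Beats t p q r (T4 t) := by
  left
  unfold Gi Kb vv T4
  have htp0 : 0.672 ≤ t * p := by nlinarith
  have htp1 : t * p ≤ 0.972 := by nlinarith
  have hA0 : 0 ≤ 1 - t * p := by linarith
  -- the main part
  have hD : 0.0009 ≤ DD p t q r (1 - t * p) ((2 - t) ^ 4 / 12) := by
    rcases le_total (1 - t * p) (12 * ((2 - t) ^ 4 / 12)) with hA | hA
    · rcases le_total (2 * p) t with h2 | h2
      · exact DD_lower hA0 hA hqp hrq hS (b8_V1I ht0 ht1 hp0 hp1) (b8_V2I ht0 ht1 hp0 hp1)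
      · have e1 : t / 2 + (p - t / 2) = p := by ring
        have k1 := b8_V1II (t := t) (w := p - t / 2) ht0 ht1 (by linarith) (by linarith)
        rw [e1] at k1
        exact DD_lower hA0 hA (by linarith : q ≤ t - p) hrq hS k1 (b8_V2II ht0 ht1 hp0 hp1)
    · have hS' : 2 * 0.475 ≤ q + r := by linarith
      rcases le_total (2 * p) t with h2 | h2
      · exact DD_lower' hA0 hA hqp hrq hS' (b8_V1I ht0 ht1 hp0 hp1) (b8_V3 ht0 ht1 hp0 hp1)
      · have e1 : t / 2 + (p - t / 2) = p := by ring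
        have k1 := b8_V1II (t := t) (w := p - t / 2) ht0 ht1 (by linarith) (by linarith)
        rw [e1] at k1
        exact DD_lower' hA0 hA (by linarith : q ≤ t - p) hrq hS' k1 (b8_V3 ht0 ht1 hp0 hp1)
  -- the corrections
  have hv : 0 ≤ (1 - p ^ 2 - q ^ 2 - r ^ 2) / 3 := by linarith
  have hv1 : (1 - p ^ 2 - q ^ 2 - r ^ 2) / 3 ≤ (0.54875 - p ^ 2) / 3 := by
    nlinarith [sq_nonneg (q - r)]
  have hp : 0 < p := by linarith
  have hbp : p ≤ t + p - q - r := by linarith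
  have hb : 0 < t + p - q - r := by linarith
  set v := (1 - p ^ 2 - q ^ 2 - r ^ 2) / 3 with hvdef
  have hv2 : v ≤ 0.14 * p := by nlinarith
  have hcv : (4 * (t * p) - 2) * v ≤ 0.257 * p ^ 2 := by
    have h6 : 4 * (t * p) - 2 ≤ 5.4 * p - 2 := by nlinarith
    have h7 : (4 * (t * p) - 2) * v ≤ (5.4 * p - 2) * ((0.54875 - p ^ 2) / 3) :=
      mul_le_mul h6 hv1 hv (by linarith)
    have h8 : 0 ≤ 0.257 * p ^ 2 - (5.4 * p - 2) * ((0.54875 - p ^ 2) / 3) := by
      have h9 : 0.257 * p ^ 2 - (5.4 * p - 2) * ((0.54875 - p ^ 2) / 3) =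
        (p - 0.56) ^ 2 * (1.8 * (p - 0.56) + 2.6143333) + (p - 0.56) * 0.2449 +
          ((p - 0.56) * 0.0004 + 0) + (0.257 * p ^ 2 - (5.4 * p - 2) * ((0.54875 - p ^ 2) / 3) -
          ((p - 0.56) ^ 2 * (1.8 * (p - 0.56) + 2.6143333) + (p - 0.56) * 0.2449 +
          ((p - 0.56) * 0.0004 + 0))) := by ring
      nlinarith [mul_nonneg (sub_nonneg.2 hp0) (sub_nonneg.2 hp1),
        mul_nonneg (mul_nonneg (sub_nonneg.2 hp0) (sub_nonneg.2 hp0)) hp.le]
    linarith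
  have hK1 : (4 * (t * p) - 2) * (0.1647 * v ^ 3 / (t + p - q - r) ^ 4) ≤
      0.1647 * (0.257 * 0.14 ^ 2) := by
    have hc0 : 0 ≤ 4 * (t * p) - 2 := by linarith
    calc (4 * (t * p) - 2) * (0.1647 * v ^ 3 / (t + p - q - r) ^ 4)
        ≤ (4 * (t * p) - 2) * (0.1647 * v ^ 3 / p ^ 4) := by gcongr
      _ = 0.1647 * (((4 * (t * p) - 2) * v) * v ^ 2) / p ^ 4 := by ring
      _ ≤ 0.1647 * ((0.257 * p ^ 2) * (0.14 * p) ^ 2) / p ^ 4 := by gcongr
      _ = 0.1647 * (0.257 * 0.14 ^ 2) := by field_simp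
  have hv3 : v ≤ 0.08 := by nlinarith
  have hg : 1.43 ≤ t - p + q + r := by linarith
  have hK2 : (1 - t * p) * (0.1647 * v ^ 3 / (t - p + q + r) ^ 4) ≤
      0.33 * (0.1647 * 0.08 ^ 3 / 1.43 ^ 4) := by
    have h6 : 1 - t * p ≤ 0.33 := by linarith
    gcongr
  rw [max_eq_left (by linarith : 0 ≤ 4 * (t * p) - 2)]
  unfold DD at hD
  rw [← hvdef] at hD
  norm_num at hK1 hK2 hD ⊢
  linarith

end Pool.Agent.Helper89.SP
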