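import Pool.Agent.Helper89.SP.Defs

/-!
Project SP, module SP-09c: numeric facts fact_T3_4, fact_T3_8b (Bernstein certificates).
-/

set_option autoImplicit false

open Real

namespace Pool.Agent.Helper89.SP.Facts94

/-- the main part of `8 q r F - Gi` -/
noncomputable def DD (p t q r A F : ℝ) : ℝ :=
  8 * (q * r) * F - A * ((p + q + r - t) ^ 2 + (1 - p ^ 2 - q ^ 2 - r ^ 2) / 3)

theorem b4_I1 {t p : ℝ} (h1 : 1.1 ≤ t) (h2 : t ≤ 1.2) (h3 : 0.5125 ≤ p) (h4 : p ≤ 0.56) :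
    0 ≤ DD (p) t (p) (p) (1 - t * (p)) ((2 - t) ^ 4 / 12) - 0.00039 := by
  have key : ∀ x y u v : ℝ, 0 ≤ x → 0 ≤ y → 0 ≤ u → 0 ≤ v → 0 ≤
      311020000/20577*(y^4*v^3) +
      4455812000/20577*(y^4*u^1*v^2) +
      2379020800/20577*(y^4*u^2*v^1) +
      15001600/6859*(y^4*u^3) +
      2287160000/20577*(x^1*y^3*v^3) +
      9247392000/6859*(x^1*y^3*u^1*v^2) +
      8330892800/6859*(x^1*y^3*u^2*v^1) +
      6945382400/20577*(x^1*y^3*u^3) +
      1449560000/6859*(x^2*y^2*v^3) +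
      18327056000/6859*(x^2*y^2*u^1*v^2) +
      19834470400/6859*(x^2*y^2*u^2*v^1) +
      6743142400/6859*(x^2*y^2*u^3) +
      2853640000/20577*(x^3*y^1*v^3) +
      43746944000/20577*(x^3*y^1*u^1*v^2) +
      52589209600/20577*(x^3*y^1*u^2*v^1) +
      6477619200/6859*(x^3*y^1*u^3) +
      514720000/20577*(x^4*v^3) +
      12159232000/20577*(x^4*u^1*v^2) +
      15813068800/20577*(x^4*u^2*v^1) +
      6143948800/20577*(x^4*u^3) := by
    intro x y u v hx hy hu hv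
    positivity
  refine (key (t - 1.1) (1.2 - t) (p - 0.5125) (0.56 - p) (by linarith) (by linarith)
    (by linarith) (by linarith)).trans_eq ?_
  unfold DD
  ring

theorem b4_I0 {t p : ℝ} (h1 : 1.1 ≤ t) (h2 : t ≤ 1.2) (h3 : 0.5125 ≤ p) (h4 : p ≤ 0.56) :
    0 ≤ DD (p) t (p) (1.016 - 1.4 * (p - 0.5125) - p) (1 - t * (p)) ((2 - t) ^ 4 / 12) - 0.00039 := by
  have key : ∀ x y u v : ℝ, 0 ≤ x → 0 ≤ y → 0 ≤ u → 0 ≤ v → 0 ≤
      412655200/20577*(y^4*v^3) +
      6847461760/20577*(y^4*u^1*v^2) +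
      11444511760/20577*(y^4*u^2*v^1) +
      1486812160/6859*(y^4*u^3) +
      2440620800/20577*(x^1*y^3*v^3) +
      32176008640/20577*(x^1*y^3*u^1*v^2) +
      54748432720/20577*(x^1*y^3*u^2*v^1) +
      22766036480/20577*(x^1*y^3*u^3) +
      1363145600/6859*(x^2*y^2*v^3) +
      17207529280/6859*(x^2*y^2*u^1*v^2) +
      29968058480/6859*(x^2*y^2*u^2*v^1) +
      12975203840/6859*(x^2*y^2*u^3) +
      2302566400/20577*(x^3*y^1*v^3) +
      33742016320/20577*(x^3*y^1*u^1*v^2) +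
      61251287920/20577*(x^3*y^1*u^2*v^1) +
      9154987520/6859*(x^3*y^1*u^3) +
      274124800/20577*(x^4*v^3) +
      2514215680/6859*(x^4*u^1*v^2) +
      14740594880/20577*(x^4*u^2*v^1) +
      2290956800/6859*(x^4*u^3) := by
    intro x y u v hx hy hu hv
    positivity
  refine (key (t - 1.1) (1.2 - t) (p - 0.5125) (0.56 - p) (by linarith) (by linarith)
    (by linarith) (by linarith)).trans_eq ?_
  unfold DD
  ring

theorem b4_II1 {t w : ℝ} (h1 : 1.1 ≤ t) (h2 : t ≤ 1.12) (h3 : 0 ≤ w) (h4 : w ≤ 0.01) :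
    0 ≤ DD (t / 2 + w) t (t - (t / 2 + w)) (t - (t / 2 + w)) (1 - t * (t / 2 + w)) ((2 - t) ^ 4 / 12) - 0.00039 := by
  have key : ∀ x y u v : ℝ, 0 ≤ x → 0 ≤ y → 0 ≤ u → 0 ≤ v → 0 ≤
      120390625000/3*(y^6*v^2) +
      354000000000*(y^6*u^1*v^1) +
      308100000000*(y^6*u^2) +
      902125000000/3*(x^1*y^5*v^2) +
      6871343750000/3*(x^1*y^5*u^1*v^1) +
      1954055000000*(x^1*y^5*u^2) +
      2739812500000/3*(x^2*y^4*v^2) +
      18491712500000/3*(x^2*y^4*u^1*v^1) +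
      5158773375000*(x^2*y^4*u^2) +
      4347950000000/3*(x^3*y^3*v^2) +
      26497652500000/3*(x^3*y^3*u^1*v^1) +
      21771732100000/3*(x^3*y^3*u^2) +
      1273447500000*(x^4*y^2*v^2) +
      21326075000000/3*(x^4*y^2*u^1*v^1) +
      5738134560000*(x^4*y^2*u^2) +
      589267800000*(x^5*y^1*v^2) +
      3047107680000*(x^5*y^1*u^1*v^1) +
      2417955400000*(x^5*y^1*u^2) +
      112444260000*(x^6*v^2) +
      543510600000*(x^6*u^1*v^1) +
      424246500000*(x^6*u^2) := by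
    intro x y u v hx hy hu hv
    positivity
  refine (key (t - 1.1) (1.12 - t) (w - 0) (0.01 - w) (by linarith) (by linarith)
    (by linarith) (by linarith)).trans_eq ?_
  unfold DD
  ring

theorem b4_II0 {t w : ℝ} (h1 : 1.1 ≤ t) (h2 : t ≤ 1.12) (h3 : 0 ≤ w) (h4 : w ≤ 0.01) :
    0 ≤ DD (t / 2 + w) t (t - (t / 2 + w)) (1.016 - 1.4 * (t / 2 + w - 0.5125) - (t - (t / 2 + w))) (1 - t * (t / 2 + w)) ((2 - t) ^ 4 / 12) - 0.00039 := by
  have key : ∀ x y u v : ℝ, 0 ≤ x → 0 ≤ y → 0 ≤ u → 0 ≤ v → 0 ≤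
      96189179687500/3*(y^6*v^3) +
      326179140625000/3*(y^6*u^1*v^2) +
      121503539062500*(y^6*u^2*v^1) +
      44830593750000*(y^6*u^3) +
      203634578125000*(x^1*y^5*v^3) +
      2061081739062500/3*(x^1*y^5*u^1*v^2) +
      2293686200000000/3*(x^1*y^5*u^2*v^1) +
      281111473437500*(x^1*y^5*u^3) +
      1612316646875000/3*(x^2*y^4*v^3) +
      5413961395625000/3*(x^2*y^4*u^1*v^2) +
      2000449151875000*(x^2*y^4*u^2*v^1) +
      733088985625000*(x^2*y^4*u^3) +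
      754609768750000*(x^3*y^3*v^3) +
      7568082437125000/3*(x^3*y^3*u^1*v^2) +
      8358233589500000/3*(x^3*y^3*u^2*v^1) +
      3053397708625000/3*(x^3*y^3*u^3) +
      1783785376562500/3*(x^4*y^2*v^3) +
      5938602079075000/3*(x^4*y^2*u^1*v^2) +
      6535811425662500/3*(x^4*y^2*u^2*v^1) +
      2380556348150000/3*(x^4*y^2*u^3) +
      249321999600000*(x^5*y^1*v^3) +
      2480469090737500/3*(x^5*y^1*u^1*v^2) +
      2720945122475000/3*(x^5*y^1*u^2*v^1) +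
      988266155537500/3*(x^5*y^1*u^3) +
      130407835100000/3*(x^6*v^3) +
      143630216000000*(x^6*u^1*v^2) +
      471195409900000/3*(x^6*u^2*v^1) +
      56894399000000*(x^6*u^3) := by
    intro x y u v hx hy hu hv
    positivity
  refine (key (t - 1.1) (1.12 - t) (w - 0) (0.01 - w) (by linarith) (by linarith)
    (by linarith) (by linarith)).trans_eq ?_
  unfold DD
  ring

theorem b8_V1I {t p : ℝ} (h1 : 1.2 ≤ t) (h2 : t ≤ 1.35) (h3 : 0.56 ≤ p) (h4 : p ≤ 0.72) :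
    0 ≤ DD (p) t (p) (p) (1 - t * (p)) ((2 - t) ^ 4 / 12) - 0.0009 := by
  have key : ∀ x y u v : ℝ, 0 ≤ x → 0 ≤ y → 0 ≤ u → 0 ≤ v → 0 ≤
      1260925/972*(y^4*v^3) +
      5936375/972*(y^4*u^1*v^2) +
      1740925/324*(y^4*u^2*v^1) +
      18979325/972*(y^4*u^3) +
      1731775/243*(x^1*y^3*v^3) +
      8818625/243*(x^1*y^3*u^1*v^2) +
      2842775/81*(x^1*y^3*u^2*v^1) +
      20449475/243*(x^1*y^3*u^3) +
      4184525/324*(x^2*y^2*v^3) +
      22597375/324*(x^2*y^2*u^1*v^2) +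
      2490175/36*(x^2*y^2*u^2*v^1) +
      43166725/324*(x^2*y^2*u^3) +
      18394175/1944*(x^3*y^1*v^3) +
      105274375/1944*(x^3*y^1*u^1*v^2) +
      34475675/648*(x^3*y^1*u^2*v^1) +
      177826825/1944*(x^3*y^1*u^3) +
      589825/243*(x^4*v^3) +
      14360375/972*(x^4*u^1*v^2) +
      1131575/81*(x^4*u^2*v^1) +
      22313825/972*(x^4*u^3) := by
    intro x y u v hx hy hu hv
    positivity
  refine (key (t - 1.2) (1.35 - t) (p - 0.56) (0.72 - p) (by linarith) (by linarith)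
    (by linarith) (by linarith)).trans_eq ?_
  unfold DD
  ring

theorem b8_V2I {t p : ℝ} (h1 : 1.2 ≤ t) (h2 : t ≤ 1.35) (h3 : 0.56 ≤ p) (h4 : p ≤ 0.72) :
    0 ≤ DD (p) t (p) (0.95 - p) (1 - t * (p)) ((2 - t) ^ 4 / 12) - 0.0009 := by
  have key : ∀ x y u v : ℝ, 0 ≤ x → 0 ≤ y → 0 ≤ u → 0 ≤ v → 0 ≤
      57883/243*(y^4*v^2) +
      50678/27*(y^4*u^1*v^1) +
      114649/81*(y^4*u^2) +
      232051/243*(x^1*y^3*v^2) +
      666748/81*(x^1*y^3*u^1*v^1) +
      495403/81*(x^1*y^3*u^2) +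
      99959/81*(x^2*y^2*v^2) +
      344482/27*(x^2*y^2*u^1*v^1) +
      247877/27*(x^2*y^2*u^2) +
      282173/486*(x^3*y^1*v^2) +
      75928/9*(x^3*y^1*u^1*v^1) +
      934769/162*(x^3*y^1*u^2) +
      268153/3888*(x^4*v^2) +
      165484/81*(x^4*u^1*v^1) +
      1677709/1296*(x^4*u^2) := by
    intro x y u v hx hy hu hv
    positivity
  refine (key (t - 1.2) (1.35 - t) (p - 0.56) (0.72 - p) (by linarith) (by linarith)
    (by linarith) (by linarith)).trans_eq ?_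
  unfold DD
  ring

theorem b8_V2II {t p : ℝ} (h1 : 1.2 ≤ t) (h2 : t ≤ 1.35) (h3 : 0.56 ≤ p) (h4 : p ≤ 0.72) :
    0 ≤ DD (p) t (t - p) (0.95 - (t - p)) (1 - t * (p)) ((2 - t) ^ 4 / 12) - 0.0009 := by
  have key : ∀ x y u v : ℝ, 0 ≤ x → 0 ≤ y → 0 ≤ u → 0 ≤ v → 0 ≤
      14993200/2187*(y^6*v^2) +
      2216800/27*(y^6*u^1*v^1) +
      73219600/729*(y^6*u^2) +
      30763600/729*(x^1*y^5*v^2) +
      344110400/729*(x^1*y^5*u^1*v^1) +
      16053200/27*(x^1*y^5*u^2) +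
      28265200/243*(x^2*y^4*v^2) +
      810342400/729*(x^2*y^4*u^1*v^1) +
      348630800/243*(x^2*y^4*u^2) +
      401690600/2187*(x^3*y^3*v^2) +
      1008540800/729*(x^3*y^3*u^1*v^1) +
      1322865800/729*(x^3*y^3*u^2) +
      123405400/729*(x^4*y^2*v^2) +
      701685350/729*(x^4*y^2*u^1*v^1) +
      34307050/27*(x^4*y^2*u^2) +
      54074875/648*(x^5*y^1*v^2) +
      1033817875/2916*(x^5*y^1*u^1*v^1) +
      906912625/1944*(x^5*y^1*u^2) +
      36830950/2187*(x^6*v^2) +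
      39186350/729*(x^6*u^1*v^1) +
      50973100/729*(x^6*u^2) := by
    intro x y u v hx hy hu hv
    positivity
  refine (key (t - 1.2) (1.35 - t) (p - 0.56) (0.72 - p) (by linarith) (by linarith)
    (by linarith) (by linarith)).trans_eq ?_
  unfold DD
  ring

theorem b8_V3 {t p : ℝ} (h1 : 1.2 ≤ t) (h2 : t ≤ 1.35) (h3 : 0.56 ≤ p) (h4 : p ≤ 0.72) :
    0 ≤ DD (p) t (0.475) (0.475) (1 - t * (p)) ((2 - t) ^ 4 / 12) - 0.0009 := by
  have key : ∀ x y u v : ℝ, 0 ≤ x → 0 ≤ y → 0 ≤ u → 0 ≤ v → 0 ≤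
      3262625/1944*(y^4*v^3) +
      29058875/1944*(y^4*u^1*v^2) +
      16728625/648*(y^4*u^2*v^1) +
      9153875/648*(y^4*u^3) +
      24137125/3888*(x^1*y^3*v^3) +
      236687125/3888*(x^1*y^3*u^1*v^2) +
      134331625/1296*(x^1*y^3*u^2*v^1) +
      71929625/1296*(x^1*y^3*u^3) +
      9714125/1296*(x^2*y^2*v^3) +
      115119125/1296*(x^2*y^2*u^1*v^2) +
      7221625/48*(x^2*y^2*u^2*v^1) +
      11403875/144*(x^2*y^2*u^3) +
      24944375/7776*(x^3*y^1*v^3) +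
      431260625/7776*(x^3*y^1*u^1*v^2) +
      243949375/2592*(x^3*y^1*u^2*v^1) +
      126430625/2592*(x^3*y^1*u^3) +
      138811625/497664*(x^4*v^3) +
      6306642875/497664*(x^4*u^1*v^2) +
      3585019625/165888*(x^4*u^2*v^1) +
      1823987875/165888*(x^4*u^3) := by
    intro x y u v hx hy hu hv
    positivity
  refine (key (t - 1.2) (1.35 - t) (p - 0.56) (0.72 - p) (by linarith) (by linarith)
    (by linarith) (by linarith)).trans_eq ?_
  unfold DD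
  ring

theorem b8_V1II {t w : ℝ} (h1 : 1.2 ≤ t) (h2 : t ≤ 1.35) (h3 : 0 ≤ w) (h4 : w ≤ 0.12) :
    0 ≤ DD (t / 2 + w) t (t - (t / 2 + w)) (t - (t / 2 + w)) (1 - t * (t / 2 + w)) ((2 - t) ^ 4 / 12) - 0.0009 := by
  have key : ∀ x y u v : ℝ, 0 ≤ x → 0 ≤ y → 0 ≤ u → 0 ≤ v → 0 ≤
      488480000/19683*(y^6*v^2) +
      5243968000/19683*(y^6*u^1*v^1) +
      3568467200/19683*(y^6*u^2) +
      1410880000/6561*(x^1*y^5*v^2) +
      12022016000/6561*(x^1*y^5*u^1*v^1) +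
      7980889600/6561*(x^1*y^5*u^2) +
      4915600000/6561*(x^2*y^4*v^2) +
      34183520000/6561*(x^2*y^4*u^1*v^1) +
      22076329600/6561*(x^2*y^4*u^2) +
      26603200000/19683*(x^3*y^3*v^2) +
      154750520000/19683*(x^3*y^3*u^1*v^1) +
      97002769600/19683*(x^3*y^3*u^2) +
      8767900000/6561*(x^4*y^2*v^2) +
      43636760000/6561*(x^4*y^2*u^1*v^1) +
      26506686400/6561*(x^4*y^2*u^2) +
      4517155000/6561*(x^5*y^1*v^2) +
      19633883000/6561*(x^5*y^1*u^1*v^1) +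
      11547760000/6561*(x^5*y^1*u^2) +
      5697105625/39366*(x^6*v^2) +
      11013864625/19683*(x^6*u^1*v^1) +
      12542862025/39366*(x^6*u^2) := by
    intro x y u v hx hy hu hv
    positivity
  refine (key (t - 1.2) (1.35 - t) (w - 0) (0.12 - w) (by linarith) (by linarith)
    (by linarith) (by linarith)).trans_eq ?_
  unfold DD
  ring

end Pool.Agent.Helper89.SP.Facts94
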